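import Pool.Agent.R891.WM.FIb1

open MeasureTheory Set Filter Topology
open scoped ENNReal

namespace R891.FIb

open R970.WM

theorem U_prob : IsProbabilityMeasure U := by
  constructor
  unfold U
  rw [Measure.restrict_apply_univ, Real.volume_Ico]
  simp

theorem fiber (hj : Stm.joint) : Stm.fiber := by
  intro G _ _ _ _ _ _ _ _ _ ν _ _ W _ _ _ R hR n T ix hT hix s0 hs0 ha hb hw
  have := U_prob
  have : TopologicalSpace.MetrizableSpace G :=
    TopologicalSpace.metrizableSpace_of_t3_secondCountable G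
  borelize W
  set π : Measure (Fin n → G) := Measure.pi (fun _ : Fin n => ν) with hπ
  set τ : (Fin n → G) × ℝ → (Fin n → G) × ℝ := fun p => (p.1, T p.2) with hτd
  have hτ : MeasurePreserving τ (π.prod U) (π.prod U) :=
    (MeasurePreserving.id π).prod hT.toMeasurePreserving
  set L : (Fin n → G) × ℝ → (W ≃ₗᵢ[ℂ] W) := fun p => R ((p.1 (ix p.2))⁻¹) with hLd
  have hmeas : Measurable (fun p : (Fin n → G) × ℝ => (p.1 (ix p.2))⁻¹) := by
    have h1 : Measurable (fun q : (Fin n → G) × Fin n => q.1 q.2) :=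
      measurable_from_prod_countable_left fun i => measurable_pi_apply i
    exact (h1.comp (measurable_fst.prodMk (hix.comp measurable_snd))).inv
  have hL : ∀ F : (Fin n → G) × ℝ → W, AEStronglyMeasurable F (π.prod U) →
      AEStronglyMeasurable (fun p => L p (F p)) (π.prod U) := by
    intro F hF
    have h2 : AEStronglyMeasurable (fun p => ((p.1 (ix p.2))⁻¹, F p)) (π.prod U) :=
      hmeas.stronglyMeasurable.aestronglyMeasurable.prodMk hF
    exact hR.comp_aestronglyMeasurable h2
  -- the fixed vectors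
  let K : Submodule ℂ W :=
    { carrier := {w | ∀ a, R a w = w}
      add_mem' := by
        intro v w hv hw a
        rw [map_add, hv a, hw a]
      zero_mem' := fun a => map_zero _
      smul_mem' := by
        intro c v hv a
        rw [map_smul, hv a] }
  have hKm : ∀ w, w ∈ K ↔ ∀ a, R a w = w := fun w => Iff.rfl
  set Q : W →L[ℂ] W := Kᗮ.starProjection with hQd
  have hQn : ∀ w, ‖Q w‖ ≤ ‖w‖ := fun w => Kᗮ.norm_starProjection_apply_le w
  have hQ0 : ∀ w, Q w = 0 ↔ w ∈ K := by
    intro w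
    have h1 := K.starProjection_add_starProjection_orthogonal w
    rw [← K.starProjection_eq_self_iff]
    constructor
    · intro h
      rw [hQd] at h
      rw [h, add_zero] at h1
      exact h1
    · intro h
      rw [h] at h1
      exact left_eq_add.1 h1.symm
  have hQn' : ∀ w, ‖Q w‖ₑ ≤ ‖w‖ₑ := by
    intro w
    rw [← ofReal_norm, ← ofReal_norm]
    exact ENNReal.ofReal_le_ofReal (hQn w)
  have hinvL : ∀ (p : (Fin n → G) × ℝ) (v w : W), v = R (p.1 (ix p.2)) w ↔ w = L p v := by
    intro p v w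
    rw [hLd]
    constructor
    · rintro rfl
      change w = R ((p.1 (ix p.2))⁻¹) (R (p.1 (ix p.2)) w)
      rw [map_inv]
      exact ((R (p.1 (ix p.2))).symm_apply_apply w).symm
    · rintro rfl
      change v = R (p.1 (ix p.2)) (R ((p.1 (ix p.2))⁻¹) v)
      rw [map_inv]
      exact ((R (p.1 (ix p.2))).apply_symm_apply v).symm
  have hjoint : ∀ M : (Fin n → G) × ℝ → W, StronglyMeasurable M → (∃ C : ℝ, ∀ p, ‖M p‖ ≤ C) →
      (∀ᵐ p ∂(π.prod U), M p = L p (M (τ p))) → ∀ᵐ p ∂(π.prod U), Q (M p) = 0 := by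
    intro M hM hC hinv
    have := hj G ν W R hR n T ix hT hix s0 hs0 ha hb hw M hM hC (by
      filter_upwards [hinv] with p hp
      exact (hinvL p _ _).2 hp)
    filter_upwards [this] with p hp
    exact (hQ0 _).2 hp
  -- a countable dense family
  have : Fact ((1 : ℝ≥0∞) ≤ 2) := ⟨by norm_num⟩
  have : Fact ((2 : ℝ≥0∞) ≠ ⊤) := ⟨by norm_num⟩
  set D : ℕ → Lp W 2 U := TopologicalSpace.denseSeq (Lp W 2 U) with hD
  have hlim : ∀ j : ℕ, ∀ᵐ g ∂π, liminf (fun N => ∫⁻ x, ‖Q (av T (fun x => L (g, x))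
      (fun x => D j x) N x)‖ₑ ∂U) atTop = 0 := by
    intro j
    have hf : MemLp (fun p : (Fin n → G) × ℝ => D j p.2) 2 (π.prod U) :=
      (Lp.memLp (D j)).comp_measurePreserving measurePreserving_snd
    have h1 := mean τ hτ L hL (fun p => D j p.2) hf Q hQn hjoint
    have hae : ∀ N, AEMeasurable (fun p => ‖Q (av τ L (fun p => D j p.2) N p)‖ₑ) (π.prod U) :=
      fun N => (Q.continuous.comp_aestronglyMeasurable
        (av_aesm τ hτ L hL _ hf.1 N)).enorm
    have h2 : ∀ N, ∫⁻ p, ‖Q (av τ L (fun p => D j p.2) N p)‖ₑ ∂(π.prod U) =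
        ∫⁻ g, ∫⁻ x, ‖Q (av T (fun x => L (g, x)) (fun x => D j x) N x)‖ₑ ∂U ∂π := by
      intro N
      rw [lintegral_prod _ (hae N)]
      apply lintegral_congr
      intro g
      apply lintegral_congr
      intro x
      rw [hτd, av_prod T L (fun x => D j x) N g x]
    have hae2 : ∀ N, AEMeasurable (fun g => ∫⁻ x, ‖Q (av T (fun x => L (g, x))
        (fun x => D j x) N x)‖ₑ ∂U) π := by
      intro N
      have := (hae N).lintegral_prod_right'
      refine this.congr (Eventually.of_forall fun g => ?_)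
      apply lintegral_congr
      intro x
      rw [hτd, av_prod T L (fun x => D j x) N g x]
    have h3 := lintegral_liminf_le' (u := atTop) hae2
    have h4 : liminf (fun N => ∫⁻ g, ∫⁻ x, ‖Q (av T (fun x => L (g, x))
        (fun x => D j x) N x)‖ₑ ∂U ∂π) atTop = 0 := by
      have : Tendsto (fun N => ∫⁻ g, ∫⁻ x, ‖Q (av T (fun x => L (g, x))
        (fun x => D j x) N x)‖ₑ ∂U ∂π) atTop (𝓝 0) := by
        refine h1.congr fun N => h2 N
      exact this.liminf_eq
    have hlm : AEMeasurable (fun g => liminf (fun N => ∫⁻ x, ‖Q (av T (fun x => L (g, x))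
        (fun x => D j x) N x)‖ₑ ∂U) atTop) π := by
      refine ⟨fun g => liminf (fun N => (hae2 N).mk _ g) atTop,
        Measurable.liminf (fun N => (hae2 N).measurable_mk), ?_⟩
      filter_upwards [ae_all_iff.2 (fun N => (hae2 N).ae_eq_mk)] with g hg
      congr 1
      funext N
      exact hg N
    rw [h4, nonpos_iff_eq_zero, lintegral_eq_zero_iff' hlm] at h3
    filter_upwards [h3] with g hg
    exact hg
  filter_upwards [ae_all_iff.2 hlim] with g hg M hM hC hinv
  obtain ⟨C, hC⟩ := hC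
  have hMm : MemLp M 2 U := MemLp.of_bound hM.aestronglyMeasurable C (Eventually.of_forall hC)
  have hinv' : ∀ᵐ x ∂U, M x = L (g, x) (M (T x)) := by
    filter_upwards [hinv] with x hx
    exact (hinvL (g, x) _ _).1 hx
  have hfin : ∀ ε : ℝ, 0 < ε → ∫⁻ x, ‖Q (M x)‖ₑ ∂U ≤ ENNReal.ofReal ε + ENNReal.ofReal ε := by
    intro ε hε
    obtain ⟨j, hjd⟩ := (TopologicalSpace.denseRange_denseSeq (Lp W 2 U)).exists_dist_lt
      (hMm.toLp M) hε
    have hd : ∫⁻ x, ‖M x - D j x‖ₑ ∂U ≤ ENNReal.ofReal ε := by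
      have e1 : ∫⁻ x, ‖M x - D j x‖ₑ ∂U = ∫⁻ x, ‖(hMm.toLp M - D j : Lp W 2 U) x‖ₑ ∂U := by
        apply lintegral_congr_ae
        filter_upwards [Lp.coeFn_sub (hMm.toLp M) (D j), hMm.coeFn_toLp] with x e1 e2
        rw [e1, Pi.sub_apply, e2]
      rw [e1, ← eLpNorm_one_eq_lintegral_enorm]
      refine (eLpNorm_le_eLpNorm_of_exponent_le (p := 1) (q := 2) (by norm_num)
        (Lp.aestronglyMeasurable _)).trans ?_
      have e2 : eLpNorm (hMm.toLp M - D j : Lp W 2 U) 2 U =
          ENNReal.ofReal ‖(hMm.toLp M - D j : Lp W 2 U)‖ := by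
        rw [Lp.norm_def, ENNReal.ofReal_toReal (Lp.eLpNorm_ne_top _)]
      rw [e2, ← dist_eq_norm]
      exact ENNReal.ofReal_le_ofReal hjd.le
    have hlt : liminf (fun N => ∫⁻ x, ‖Q (av T (fun x => L (g, x))
      (fun x => D j x) N x)‖ₑ ∂U) atTop < ENNReal.ofReal ε := by
      rw [hg j]
      exact ENNReal.ofReal_pos.2 hε
    have hfr := frequently_lt_of_liminf_lt (by isBoundedDefault) hlt
    obtain ⟨N, hN1, hN2⟩ := (hfr.and_eventually (eventually_ge_atTop 1)).exists
    have hsub : ∫⁻ x, ‖Q (M x)‖ₑ ∂U ≤ ∫⁻ x, (‖Q (av T (fun x => L (g, x))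
        (fun x => D j x) N x)‖ₑ + ‖av T (fun x => L (g, x)) (fun x => M x - D j x) N x‖ₑ) ∂U := by
      apply lintegral_mono_ae
      filter_upwards [av_fix T hT.toMeasurePreserving (fun x => L (g, x)) M hinv' N hN2]
        with x hx
      rw [← hx]
      have e : Q (av T (fun x => L (g, x)) M N x) =
          Q (av T (fun x => L (g, x)) (fun x => D j x) N x) +
          Q (av T (fun x => L (g, x)) (fun x => M x - D j x) N x) := by
        rw [av_sub, map_sub]
        abel
      rw [e]
      exact (enorm_add_le _ _).trans (add_le_add le_rfl (hQn' _))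
    have hLg : ∀ F : ℝ → W, AEStronglyMeasurable F U →
        AEStronglyMeasurable (fun x => L (g, x) (F x)) U := by
      intro F hF
      have hm2 : Measurable (fun x : ℝ => (g (ix x))⁻¹) :=
        hmeas.comp (measurable_const.prodMk measurable_id)
      have h2 : AEStronglyMeasurable (fun x => ((g (ix x))⁻¹, F x)) U :=
        hm2.stronglyMeasurable.aestronglyMeasurable.prodMk hF
      exact hR.comp_aestronglyMeasurable h2
    have hDm : AEStronglyMeasurable (fun x => D j x) U := Lp.aestronglyMeasurable (D j)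
    rw [lintegral_add_left' ((Q.continuous.comp_aestronglyMeasurable
      (av_aesm T hT.toMeasurePreserving _ hLg _ hDm N)).enorm)] at hsub
    refine hsub.trans (add_le_add hN1.le ?_)
    refine (av_le T hT.toMeasurePreserving _ _ (hM.aestronglyMeasurable.sub hDm) N hN2).trans hd
  have hzero : ∫⁻ x, ‖Q (M x)‖ₑ ∂U = 0 := by
    rw [← nonpos_iff_eq_zero]
    have hle : ∀ ε : ℝ, 0 < ε → ∫⁻ x, ‖Q (M x)‖ₑ ∂U ≤ ENNReal.ofReal ε := by
      intro ε hε
      refine (hfin (ε / 2) (by linarith)).trans (le_of_eq ?_)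
      rw [← ENNReal.ofReal_add (by linarith) (by linarith)]
      congr 1
      ring
    apply le_of_forall_pos_le_add
    intro δ hδ
    rw [zero_add]
    rcases eq_or_ne δ ⊤ with h | h
    · rw [h]
      exact le_top
    · have := hle δ.toReal (ENNReal.toReal_pos hδ.ne' h)
      rwa [ENNReal.ofReal_toReal h] at this
  rw [lintegral_eq_zero_iff' (Q.continuous.comp_aestronglyMeasurable
    hM.aestronglyMeasurable).enorm] at hzero
  filter_upwards [hzero] with x hx
  have h0 : Q (M x) = 0 := by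
    have : ‖Q (M x)‖ₑ = 0 := hx
    exact enorm_eq_zero.1 this
  exact (hQ0 _).1 h0

end R891.FIb
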