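import Pool.Agent.R970.WM.Stm2

open MeasureTheory Set Filter Topology
open scoped ENNReal

namespace R891.FIb

section gen
variable {Ω : Type} [MeasurableSpace Ω] {m : Measure Ω} [IsProbabilityMeasure m]
  {W : Type} [NormedAddCommGroup W] [InnerProductSpace ℂ W] [FiniteDimensional ℂ W]

theorem exU (τ : Ω → Ω) (hτ : MeasurePreserving τ m m) (L : Ω → (W ≃ₗᵢ[ℂ] W))
    (hL : ∀ F : Ω → W, AEStronglyMeasurable F m → AEStronglyMeasurable (fun p => L p (F p)) m) :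
    ∃ 𝒰 : Lp W 2 m →L[ℂ] Lp W 2 m, ‖𝒰‖ ≤ 1 ∧
      ∀ F : Lp W 2 m, (𝒰 F : Ω → W) =ᵐ[m] fun p => L p (F (τ p)) := by
  have hmem : ∀ F : Lp W 2 m, MemLp (fun p => L p (F (τ p))) 2 m := by
    intro F
    have h1 : MemLp (F ∘ τ) 2 m := (Lp.memLp F).comp_measurePreserving hτ
    exact h1.congr_norm (hL _ h1.1) (Eventually.of_forall fun p => by simp)
  let 𝒰 : Lp W 2 m →ₗ[ℂ] Lp W 2 m :=
    { toFun := fun F => (hmem F).toLp _
      map_add' := by
        intro F F'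
        apply Lp.ext
        have h2 := hτ.quasiMeasurePreserving.ae_eq_comp (Lp.coeFn_add F F')
        filter_upwards [(hmem (F + F')).coeFn_toLp, (hmem F).coeFn_toLp, (hmem F').coeFn_toLp,
          Lp.coeFn_add ((hmem F).toLp _) ((hmem F').toLp _), h2] with p e1 e2 e3 e4 e5
        rw [e1, e4, Pi.add_apply, e2, e3]
        have : (F + F' : Lp W 2 m) (τ p) = F (τ p) + F' (τ p) := e5
        rw [this, map_add]
      map_smul' := by
        intro c F
        apply Lp.ext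
        have h2 := hτ.quasiMeasurePreserving.ae_eq_comp (Lp.coeFn_smul c F)
        filter_upwards [(hmem (c • F)).coeFn_toLp, (hmem F).coeFn_toLp,
          Lp.coeFn_smul c ((hmem F).toLp _), h2] with p e1 e2 e4 e5
        simp only [RingHom.id_apply]
        rw [e1, e4, Pi.smul_apply, e2]
        have : (c • F : Lp W 2 m) (τ p) = c • F (τ p) := e5
        rw [this, map_smul] }
  refine ⟨𝒰.mkContinuous 1 ?_, 𝒰.mkContinuous_norm_le (by norm_num) _, ?_⟩
  · intro F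
    rw [one_mul]
    change ‖(hmem F).toLp _‖ ≤ ‖F‖
    rw [Lp.norm_toLp, Lp.norm_def]
    apply le_of_eq
    congr 1
    rw [← eLpNorm_comp_measurePreserving (Lp.aestronglyMeasurable F) hτ]
    apply eLpNorm_congr_norm_ae
    exact Eventually.of_forall fun p => by simp
  · intro F
    exact (hmem F).coeFn_toLp

/-- iterates -/
noncomputable def it (τ : Ω → Ω) (L : Ω → (W ≃ₗᵢ[ℂ] W)) (f : Ω → W) : ℕ → Ω → W
  | 0 => f
  | k + 1 => fun p => L p (it τ L f k (τ p))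

/-- averages -/
noncomputable def av (τ : Ω → Ω) (L : Ω → (W ≃ₗᵢ[ℂ] W)) (f : Ω → W) (N : ℕ) (p : Ω) : W :=
  (N : ℂ)⁻¹ • ∑ k ∈ Finset.range N, it τ L f k p

theorem mean (τ : Ω → Ω) (hτ : MeasurePreserving τ m m) (L : Ω → (W ≃ₗᵢ[ℂ] W))
    (hL : ∀ F : Ω → W, AEStronglyMeasurable F m → AEStronglyMeasurable (fun p => L p (F p)) m)
    (f : Ω → W) (hf : MemLp f 2 m) (Q : W →L[ℂ] W) (hQ : ∀ w, ‖Q w‖ ≤ ‖w‖)
    (hj : ∀ M : Ω → W, StronglyMeasurable M → (∃ C : ℝ, ∀ p, ‖M p‖ ≤ C) →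
      (∀ᵐ p ∂m, M p = L p (M (τ p))) → ∀ᵐ p ∂m, Q (M p) = 0) :
    Tendsto (fun N => ∫⁻ p, ‖Q (av τ L f N p)‖ₑ ∂m) atTop (𝓝 0) := by
  obtain ⟨𝒰, hn, h𝒰⟩ := exU τ hτ L hL
  set F0 : Lp W 2 m := hf.toLp f with hF0
  have hit : ∀ k, (((𝒰 : Lp W 2 m → Lp W 2 m)^[k] F0 : Lp W 2 m) : Ω → W) =ᵐ[m]
      it τ L f k := by
    intro k
    induction k with
    | zero => exact hf.coeFn_toLp
    | succ k ih =>
      rw [Function.iterate_succ_apply']
      filter_upwards [h𝒰 ((𝒰 : Lp W 2 m → Lp W 2 m)^[k] F0),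
        hτ.quasiMeasurePreserving.ae_eq_comp ih] with p e1 e2
      rw [e1]
      have : ((𝒰 : Lp W 2 m → Lp W 2 m)^[k] F0 : Lp W 2 m) (τ p) = it τ L f k (τ p) := e2
      rw [this]
      rfl
  have hsum : ∀ N, ((∑ k ∈ Finset.range N, (𝒰 : Lp W 2 m → Lp W 2 m)^[k] F0 : Lp W 2 m) :
      Ω → W) =ᵐ[m] fun p => ∑ k ∈ Finset.range N, it τ L f k p := by
    intro N
    induction N with
    | zero =>
      simp only [Finset.range_zero, Finset.sum_empty]
      exact Lp.coeFn_zero W 2 m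
    | succ N ih =>
      rw [Finset.sum_range_succ]
      filter_upwards [ih, hit N, Lp.coeFn_add (∑ k ∈ Finset.range N,
        (𝒰 : Lp W 2 m → Lp W 2 m)^[k] F0) ((𝒰 : Lp W 2 m → Lp W 2 m)^[N] F0)] with p e1 e2 e3
      rw [e3, Pi.add_apply, e1, e2, Finset.sum_range_succ]
  have hav : ∀ N, ((birkhoffAverage ℂ 𝒰 _root_.id N F0 : Lp W 2 m) : Ω → W) =ᵐ[m]
      av τ L f N := by
    intro N
    have e : (birkhoffAverage ℂ 𝒰 _root_.id N F0 : Lp W 2 m) =
        (N : ℂ)⁻¹ • ∑ k ∈ Finset.range N, (𝒰 : Lp W 2 m → Lp W 2 m)^[k] F0 := rfl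
    rw [e]
    filter_upwards [Lp.coeFn_smul (N : ℂ)⁻¹ (∑ k ∈ Finset.range N,
      (𝒰 : Lp W 2 m → Lp W 2 m)^[k] F0), hsum N] with p e1 e2
    rw [e1, Pi.smul_apply, e2]
    rfl
  have hT := ContinuousLinearMap.tendsto_birkhoffAverage_orthogonalProjection 𝒰 hn F0
  set P : Lp W 2 m := ((𝒰.eqLocus (1 : Lp W 2 m →L[ℂ] Lp W 2 m)).orthogonalProjectionOnto F0 :
    Lp W 2 m) with hP
  have hPfix : 𝒰 P = P := by
    have := ((𝒰.eqLocus (1 : Lp W 2 m →L[ℂ] Lp W 2 m)).orthogonalProjectionOnto F0).2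
    exact this
  have hPinv : ∀ᵐ p ∂m, P p = L p (P (τ p)) := by
    have := h𝒰 P
    rw [hPfix] at this
    exact this
  have hQP : ∀ᵐ p ∂m, Q (P p) = 0 := by
    have h1 : ∀ C : ℕ, ∀ᵐ p ∂m, Q ({p | ‖P p‖ ≤ C}.indicator (fun p => P p) p) = 0 := by
      intro C
      apply hj
      · exact (Lp.stronglyMeasurable P).indicator
          ((Lp.stronglyMeasurable P).norm.measurable measurableSet_Iic)
      · refine ⟨C, fun p => ?_⟩
        by_cases hp : ‖P p‖ ≤ C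
        · rw [Set.indicator_of_mem (by exact hp)]
          exact hp
        · rw [Set.indicator_of_notMem (by exact hp), norm_zero]
          exact Nat.cast_nonneg C
      · filter_upwards [hPinv] with p hp
        have hnorm : ‖P p‖ = ‖P (τ p)‖ := by
          conv_lhs => rw [hp]
          simp
        by_cases hpC : ‖P p‖ ≤ C
        · rw [Set.indicator_of_mem (by exact hpC), Set.indicator_of_mem (by
            change ‖P (τ p)‖ ≤ C
            rwa [← hnorm])]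
          exact hp
        · rw [Set.indicator_of_notMem (by exact hpC), Set.indicator_of_notMem (by
            change ¬ ‖P (τ p)‖ ≤ C
            rwa [← hnorm]), map_zero]
    filter_upwards [ae_all_iff.2 h1] with p hp
    obtain ⟨C, hC⟩ := exists_nat_ge ‖P p‖
    have := hp C
    rwa [Set.indicator_of_mem (by exact hC)] at this
  have hle : ∀ N, ∫⁻ p, ‖Q (av τ L f N p)‖ₑ ∂m ≤
      ENNReal.ofReal ‖birkhoffAverage ℂ 𝒰 _root_.id N F0 - P‖ := by
    intro N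
    have e1 : ∫⁻ p, ‖Q (av τ L f N p)‖ₑ ∂m ≤
        ∫⁻ p, ‖((birkhoffAverage ℂ 𝒰 _root_.id N F0 - P : Lp W 2 m) : Ω → W) p‖ₑ ∂m := by
      apply lintegral_mono_ae
      filter_upwards [hav N, hQP, Lp.coeFn_sub (birkhoffAverage ℂ 𝒰 _root_.id N F0) P]
        with p e1 e2 e3
      rw [e3, Pi.sub_apply, e1]
      have : Q (av τ L f N p) = Q (av τ L f N p - P p) := by
        rw [map_sub, e2, sub_zero]
      rw [this]
      rw [← ofReal_norm_eq_enorm, ← ofReal_norm_eq_enorm]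
      exact ENNReal.ofReal_le_ofReal (hQ _)
    refine e1.trans ?_
    rw [← eLpNorm_one_eq_lintegral_enorm]
    refine (eLpNorm_le_eLpNorm_of_exponent_le (p := 1) (q := 2) (by norm_num)
      (Lp.aestronglyMeasurable _)).trans ?_
    rw [Lp.norm_def, ENNReal.ofReal_toReal (Lp.eLpNorm_ne_top _)]
  have hlim : Tendsto (fun N => ENNReal.ofReal ‖birkhoffAverage ℂ 𝒰 _root_.id N F0 - P‖)
      atTop (𝓝 0) := by
    have h1 : Tendsto (fun N => birkhoffAverage ℂ 𝒰 _root_.id N F0 - P) atTop (𝓝 (P - P)) :=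
      hT.sub_const P
    rw [sub_self] at h1
    have h2 := ENNReal.tendsto_ofReal h1.norm
    simpa using h2
  exact tendsto_of_tendsto_of_tendsto_of_le_of_le tendsto_const_nhds hlim
    (fun _ => bot_le) hle

theorem it_sub (τ : Ω → Ω) (L : Ω → (W ≃ₗᵢ[ℂ] W)) (h h' : Ω → W) (k : ℕ) (x : Ω) :
    it τ L (fun y => h y - h' y) k x = it τ L h k x - it τ L h' k x := by
  induction k generalizing x with
  | zero => rfl
  | succ k ih =>
    simp only [it]
    rw [ih, map_sub]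

theorem av_sub (τ : Ω → Ω) (L : Ω → (W ≃ₗᵢ[ℂ] W)) (h h' : Ω → W) (N : ℕ) (x : Ω) :
    av τ L (fun y => h y - h' y) N x = av τ L h N x - av τ L h' N x := by
  unfold av
  rw [← smul_sub, ← Finset.sum_sub_distrib]
  congr 1
  exact Finset.sum_congr rfl fun k _ => it_sub τ L h h' k x

theorem norm_it (τ : Ω → Ω) (L : Ω → (W ≃ₗᵢ[ℂ] W)) (h : Ω → W) (k : ℕ) (x : Ω) :
    ‖it τ L h k x‖ₑ = ‖h (τ^[k] x)‖ₑ := by
  induction k generalizing x with
  | zero => rfl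
  | succ k ih =>
    simp only [it]
    rw [Function.iterate_succ_apply, ← ih]
    rw [← ofReal_norm, ← ofReal_norm, LinearIsometryEquiv.norm_map]

theorem av_le (τ : Ω → Ω) (hτ : MeasurePreserving τ m m) (L : Ω → (W ≃ₗᵢ[ℂ] W)) (h : Ω → W)
    (hh : AEStronglyMeasurable h m) (N : ℕ) (hN : 1 ≤ N) :
    ∫⁻ x, ‖av τ L h N x‖ₑ ∂m ≤ ∫⁻ x, ‖h x‖ₑ ∂m := by
  have h1 : ∀ x, ‖av τ L h N x‖ₑ ≤ (N : ℝ≥0∞)⁻¹ * ∑ k ∈ Finset.range N, ‖h (τ^[k] x)‖ₑ := by
    intro x
    unfold av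
    rw [enorm_smul]
    have e0 : ‖((N : ℂ))⁻¹‖ₑ = (N : ℝ≥0∞)⁻¹ := by
      rw [enorm_inv (by exact_mod_cast (by omega : N ≠ 0))]
      congr 1
      rw [← ofReal_norm]
      simp
    rw [e0]
    refine mul_le_mul' le_rfl ((enorm_sum_le _ _).trans (le_of_eq ?_))
    exact Finset.sum_congr rfl fun k _ => norm_it τ L h k x
  refine (lintegral_mono h1).trans ?_
  have hN0 : (N : ℝ≥0∞) ≠ 0 := by exact_mod_cast (by omega : N ≠ 0)
  rw [lintegral_const_mul' _ _ (ENNReal.inv_ne_top.2 hN0)]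
  have hm : ∀ k, AEMeasurable (fun x => ‖h (τ^[k] x)‖ₑ) m := fun k =>
    (hh.comp_measurePreserving (hτ.iterate k)).enorm
  rw [lintegral_finset_sum' _ (fun k _ => hm k)]
  have h2 : ∀ k ∈ Finset.range N, ∫⁻ x, ‖h (τ^[k] x)‖ₑ ∂m = ∫⁻ x, ‖h x‖ₑ ∂m := by
    intro k _
    have := (hτ.iterate k).map_eq
    conv_rhs => rw [← this]
    rw [lintegral_map' (by rw [this]; exact hh.enorm) (hτ.iterate k).aemeasurable]
  rw [Finset.sum_congr rfl h2, Finset.sum_const, Finset.card_range, nsmul_eq_mul, ← mul_assoc,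
    ENNReal.inv_mul_cancel hN0 (ENNReal.natCast_ne_top N), one_mul]

theorem it_fix (τ : Ω → Ω) (hτ : MeasurePreserving τ m m) (L : Ω → (W ≃ₗᵢ[ℂ] W)) (M : Ω → W)
    (hM : ∀ᵐ x ∂m, M x = L x (M (τ x))) (k : ℕ) : it τ L M k =ᵐ[m] M := by
  induction k with
  | zero => exact Filter.EventuallyEq.rfl
  | succ k ih =>
    filter_upwards [hM, hτ.quasiMeasurePreserving.ae_eq_comp ih] with x e1 e2
    have : it τ L M k (τ x) = M (τ x) := e2
    simp only [it]
    rw [this, ← e1]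

theorem av_fix (τ : Ω → Ω) (hτ : MeasurePreserving τ m m) (L : Ω → (W ≃ₗᵢ[ℂ] W)) (M : Ω → W)
    (hM : ∀ᵐ x ∂m, M x = L x (M (τ x))) (N : ℕ) (hN : 1 ≤ N) : av τ L M N =ᵐ[m] M := by
  have := ae_all_iff.2 (fun k => it_fix τ hτ L M hM k)
  filter_upwards [this] with x hx
  unfold av
  rw [Finset.sum_congr rfl (fun k _ => hx k), Finset.sum_const, Finset.card_range,
    ← Nat.cast_smul_eq_nsmul ℂ, smul_smul, inv_mul_cancel₀, one_smul]
  exact_mod_cast (by omega : N ≠ 0)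

theorem it_aesm (τ : Ω → Ω) (hτ : MeasurePreserving τ m m) (L : Ω → (W ≃ₗᵢ[ℂ] W))
    (hL : ∀ F : Ω → W, AEStronglyMeasurable F m → AEStronglyMeasurable (fun p => L p (F p)) m)
    (h : Ω → W) (hh : AEStronglyMeasurable h m) (k : ℕ) : AEStronglyMeasurable (it τ L h k) m := by
  induction k with
  | zero => exact hh
  | succ k ih => exact hL _ (ih.comp_measurePreserving hτ)

theorem av_aesm (τ : Ω → Ω) (hτ : MeasurePreserving τ m m) (L : Ω → (W ≃ₗᵢ[ℂ] W))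
    (hL : ∀ F : Ω → W, AEStronglyMeasurable F m → AEStronglyMeasurable (fun p => L p (F p)) m)
    (h : Ω → W) (hh : AEStronglyMeasurable h m) (N : ℕ) : AEStronglyMeasurable (av τ L h N) m := by
  unfold av
  exact (Finset.aestronglyMeasurable_fun_sum _ fun k _ => it_aesm τ hτ L hL h hh k).const_smul _

end gen

theorem it_prod {Γ : Type} {W : Type} [NormedAddCommGroup W] [InnerProductSpace ℂ W]
    (T : ℝ → ℝ) (L : Γ × ℝ → (W ≃ₗᵢ[ℂ] W)) (h : ℝ → W) (k : ℕ) (g : Γ) (x : ℝ) :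
    it (fun p : Γ × ℝ => (p.1, T p.2)) L (fun p => h p.2) k (g, x) =
      it T (fun x => L (g, x)) h k x := by
  induction k generalizing x with
  | zero => rfl
  | succ k ih =>
    simp only [it]
    rw [ih]

theorem av_prod {Γ : Type} {W : Type} [NormedAddCommGroup W] [InnerProductSpace ℂ W]
    (T : ℝ → ℝ) (L : Γ × ℝ → (W ≃ₗᵢ[ℂ] W)) (h : ℝ → W) (N : ℕ) (g : Γ) (x : ℝ) :
    av (fun p : Γ × ℝ => (p.1, T p.2)) L (fun p => h p.2) N (g, x) =
      av T (fun x => L (g, x)) h N x := by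
  unfold av
  congr 1
  exact Finset.sum_congr rfl fun k _ => it_prod T L h k g x

end R891.FIb
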